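import Pool.Agent.R832.BG.Main

/-!
# A family with birational fibres without a birational trivialization at a point

The definitions used in the statement are in `Pool.Agent.R832.BG.Defs`.

Let `n = 3`, or `n = 5` in characteristic `3`. The family over the affine line with coordinate `s` is
given in `P^5`, in the affine coordinates `a, x, c, y, b` of the chart `x_5 ≠ 0`, by
`a ^ n = ((1 + s c) ^ n - 1) / s`,  `x ^ n + y ^ n - 1 = s b`.
For `s ≠ 0` the first equation gives the Fermat curve `E` of degree `n`, and the second one the plane
with the coordinates `x, y`. For `s = 0` the first one gives the line with the coordinate `a`, and
the second one the product of `E` and of the line with the coordinate `b`. So all fibres are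
birational to `E × P^2`. A birational trivialization at `0` would give a rational map from the total
space (after a base change) to `E` which is defined at the generic point of the fibre at `0` and is
not constant on this fibre. But a rational map to `E` only depends on `a, c` on the other fibres, by
the theorem of Fermat for polynomials, and so it only depends on `a` on the fibre at `0`, and so it
is constant there, again by the theorem of Fermat for polynomials.
-/

set_option autoImplicit false

namespace Pool.Agent.Results.MP_45f016_ag.NoTrivialization

open Pool.Agent.R832.BG Polynomial

universe u

/-- **Theorem.** Let `k` be an algebraically closed field. There are a projective flat family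
`X ⊆ A^1 × P^5` over the affine line over `k`, all fibres of which are irreducible varieties,
birational to each other, and a point `b` of the affine line, such that the family has no birational
trivialization at `b`, for any variety `X_0` birational to the fibres (`K₀` is its function
field). -/
theorem result (k : Type u) [Field k] [IsAlgClosed k] : ∃ (I : Ideal (Poly6 k[X])) (b : k),
    IsFamily I ∧ ∀ (K₀ : Type u) [Field K₀] [Algebra k K₀],
      Nonempty (K₀ ≃ₐ[k] FunField (fib I b)) → ¬ HasTriv I b K₀ :=
  main k

end Pool.Agent.Results.MP_45f016_ag.NoTrivialization
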